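import Pool.Agent.E8helper3.HL.LinInv
import Pool.Agent.E8helper3.HO.CapO2

/-!
# Tuples of fibres of hypergeometric families of linear type
-/

set_option autoImplicit false

open Pool.Agent.Y113 Pool.Agent.Y119.HY Pool.Agent.Y119.HZ Pool.Agent.E8helper3.HO

namespace Pool.Agent.E8helper3.HL

variable {n : ℕ}

lemma coeff_QR (hn : 2 ≤ n) (γ : Fin n → ℚ) : (QR γ).coeff (n - 1) = ∑ j, γ j := by
  have hdeg : (QR γ).natDegree = n := by
    unfold QR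
    rw [Polynomial.natDegree_prod_of_monic _ _ fun i _ => Polynomial.monic_X_add_C _]
    simp only [Polynomial.natDegree_X_add_C]
    rw [Finset.sum_const, Finset.card_univ, Fintype.card_fin, smul_eq_mul, mul_one]
  have h1 : (QR γ).nextCoeff = ∑ j, γ j := by
    unfold QR
    rw [Polynomial.Monic.nextCoeff_prod _ _ fun i _ => Polynomial.monic_X_add_C _]
    exact Finset.sum_congr rfl fun j _ => Polynomial.nextCoeff_X_add_C _
  rw [Polynomial.nextCoeff_of_natDegree_pos (by omega), hdeg] at h1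
  exact h1

lemma QE_lin (hn : 2 ≤ n) {γ : Fin n → ℚ} (hγ : ∀ j, ∀ a : ℤ, γ j ≠ a) : QE n (QR γ) :=
  QE_QR (fun i l h => hγ i (-(l : ℤ)) (by push_cast; linear_combination h)) (Fintype.card_fin n) hn

lemma QE_lin' (hn : 2 ≤ n) {γ : Fin n → ℚ} (hγ : ∀ j, ∀ a : ℤ, γ j ≠ a) : QE n (dual n (QR γ)) := by
  rw [dual_QR _ (Fintype.card_fin n)]
  exact QE_QR (fun i l h => hγ i (l : ℤ) (by push_cast; linear_combination -h)) (Fintype.card_fin n) hn

/-- families of linear type -/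
theorem Fm_lin (hn : 2 ≤ n) {γ : Fin n → ℚ} (hγ : ∀ j, ∀ a : ℤ, γ j ≠ a) (hσ : ∀ a : ℤ, 2 * ∑ j, γ j ≠ a) :
    Fm n (QR γ) {g | g.det ^ (∑ j, γ j).den = 1} where
  qe := QE_lin hn hγ
  qe' := QE_lin' hn hγ
  sd := fun a b => sdc_hps (γ := γ) (fun i l h => hγ i (-(l : ℤ)) (by push_cast; linear_combination h))
    (Fintype.card_fin n) hn a b
  sd' := by
    intro a b
    have h := sdc_hps (γ := fun i => -γ i) (fun i l h => hγ i (l : ℤ) (by push_cast; linear_combination -h))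
      (Fintype.card_fin n) hn a b
    rw [← dual_QR _ (Fintype.card_fin n)] at h
    exact h
  mul := by
    intro g hg h hh
    show (g * h).det ^ _ = 1
    rw [Matrix.det_mul, mul_pow, hg, hh, one_mul]
  exp := by
    intro c
    show (E (cm (Am n)) c).det ^ _ = 1
    rw [E_det (by omega), one_pow]
  gal := by
    intro g hg
    refine lin_invar (QE_lin hn hγ) (QE_lin' hn hγ) (fun a => ?_) g ?_
    · rw [coeff_QR hn]
      exact hσ a
    · rw [coeff_QR hn]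
      exact hg

/-- the determinant of the period matrix -/
theorem Yt_det (hn : 2 ≤ n) {γ : Fin n → ℚ} (hγ : ∀ j, ∀ a : ℤ, γ j ≠ a) {t : ℕ} (ht : 2 ≤ t) :
    (Yt n (QR γ) t).det ^ (∑ j, γ j).den = ((t : ℂ) / ((t : ℂ) - 1)) ^ (∑ j, γ j).num := by
  have ht0 : (2 : ℝ) ≤ t := by exact_mod_cast ht
  have hL : (((1 / (t : ℝ) : ℝ)) : ℂ) ∈ Lens :=
    real_mem_Lens (by positivity) (by rw [div_lt_one (by linarith)]; linarith)
  have h1 := Yn_det_eq (QE_lin hn hγ) hL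
  rw [Yt_eq (by omega)]
  have h2 : rh n (QR γ) = -(((∑ j, γ j : ℚ)) : ℂ) := by
    unfold rh
    rw [coeff_QR hn]
    push_cast
    rfl
  rw [h2] at h1
  set σ := ∑ j, γ j with hσ
  have hpos : (0 : ℝ) < 1 - 1 / (t : ℝ) := by
    have : 1 / (t : ℝ) < 1 := by rw [div_lt_one (by linarith)]; linarith
    linarith
  have h3 : Complex.log (1 - (((1 / (t : ℝ) : ℝ)) : ℂ)) = ((Real.log (1 - 1 / (t : ℝ)) : ℝ) : ℂ) := by
    rw [Complex.ofReal_log hpos.le]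
    push_cast
    rfl
  rw [h3] at h1
  have h4 : (Yn n (QR γ) (((1 / (t : ℝ) : ℝ)) : ℂ)).det ^ σ.den = Complex.exp (((Real.log (1 - 1 / (t : ℝ)) : ℝ) : ℂ) * (-σ.num)) := by
    rw [h1, ← Complex.exp_nat_mul]
    congr 1
    have h5 : ((σ : ℚ) : ℂ) * (σ.den : ℂ) = (σ.num : ℂ) := by
      have := Rat.mul_den_eq_num σ
      exact_mod_cast this
    linear_combination (-((Real.log (1 - 1 / (t : ℝ)) : ℝ) : ℂ)) * h5
  rw [h4]
  have h6 : Complex.exp ((Real.log (1 - 1 / (t : ℝ)) : ℝ) : ℂ) = ((t : ℂ) / ((t : ℂ) - 1))⁻¹ := by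
    rw [← Complex.ofReal_exp, Real.exp_log hpos]
    have h7 : (t : ℂ) ≠ 0 := by
      have : (t : ℝ) ≠ 0 := by positivity
      exact_mod_cast this
    push_cast
    rw [inv_div]
    field_simp
  have h8 : ((Real.log (1 - 1 / (t : ℝ)) : ℝ) : ℂ) * (-(σ.num : ℂ)) = ((-σ.num : ℤ) : ℂ) * ((Real.log (1 - 1 / (t : ℝ)) : ℝ) : ℂ) := by
    push_cast
    ring
  rw [h8, Complex.exp_int_mul, h6, zpow_neg, inv_zpow, inv_inv]

/-- **Few exceptional tuples of fibres.** -/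
theorem lin_tuples (k δ D : ℕ) (n : Fin k → ℕ) (hn : ∀ i, 2 ≤ n i) (γ : ∀ i, Fin (n i) → ℚ)
    (hγ : ∀ i j, ∀ a : ℤ, γ i j ≠ a) (hσ : ∀ i, ∀ a : ℤ, 2 * ∑ j, γ i j ≠ a) :
    ∃ c C : ℝ, 0 < c ∧ 0 ≤ C ∧ ∀ (V : Submodule ℚ ℂ) [Module.Finite ℚ V], Module.finrank ℚ V ≤ D →
      ∀ Ω : (∀ i, Matrix (Fin (n i)) (Fin (n i)) ℂ), ∀ (x : Fin k → ℕ) (N : ℕ),
      (∀ i, 1 ≤ x i) → 1 ≤ N →
      ∀ S : Finset (Fin k → ℕ), (∀ t ∈ S, (∀ i, x i < t i ∧ t i ≤ x i + N) ∧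
        ∃ P : MvPolynomial (Jx n) ℂ,
        P.totalDegree ≤ δ ∧ (∀ s, P.coeff s ∈ V) ∧
        MvPolynomial.aeval (pw (fun i => ((Real.log (t i) : ℝ) : ℂ)) fun i => Yt (n i) (QR (γ i)) (t i) * Ω i) P = 0 ∧
        ∃ (l : Fin k → ℂ) (X : ∀ i, Matrix (Fin (n i)) (Fin (n i)) ℂ),
          (∀ i, (X i).det ^ (∑ j, γ i j).den = ((t i : ℂ) / ((t i : ℂ) - 1)) ^ (∑ j, γ i j).num) ∧
          MvPolynomial.aeval (pw l fun i => X i * Ω i) P ≠ 0) →
      (S.card : ℝ) ≤ C * (N : ℝ) ^ (k - 1) * ∑ i, (1 + N / ((x i : ℝ) + N) ^ c) := by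
  obtain ⟨c, C, hc, hC, h⟩ := tuples_log k δ D n (fun i => QR (γ i))
    (fun i => {g | g.det ^ (∑ j, γ i j).den = 1}) fun i => Fm_lin (hn i) (hγ i) (hσ i)
  refine ⟨c, C, hc, hC, ?_⟩
  intro V _ hV Ω x N hx hN S hS
  refine h V hV Ω x N hx hN S fun t ht => ?_
  obtain ⟨hbox, P, h1, h2, h3, l, X, hX, h4⟩ := hS t ht
  refine ⟨hbox, P, h1, h2, h3, l, ?_⟩
  have ht2 : ∀ i, 2 ≤ t i := fun i => by
    have := (hbox i).1
    have := hx i
    omega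
  have hY : ∀ i, (Yt (n i) (QR (γ i)) (t i)).det ≠ 0 := by
    intro i
    have ht0 : (2 : ℝ) ≤ t i := by exact_mod_cast ht2 i
    rw [Yt_eq (by have := ht2 i; omega)]
    exact Yn_det (QE_lin (hn i) (hγ i)) (QE_lin' (hn i) (hγ i))
      (real_mem_Lens (by positivity) (by rw [div_lt_one (by linarith)]; linarith))
  refine ⟨fun i => (Yt (n i) (QR (γ i)) (t i))⁻¹ * X i, fun i => ?_, ?_⟩
  · show ((Yt (n i) (QR (γ i)) (t i))⁻¹ * X i).det ^ (∑ j, γ i j).den = 1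
    rw [Matrix.det_mul, mul_pow, hX i, ← Yt_det (hn i) (hγ i) (ht2 i), ← mul_pow, Matrix.det_nonsing_inv,
      Ring.inverse_mul_cancel _ (Ne.isUnit (hY i)), one_pow]
  · have h5 : ∀ i, Yt (n i) (QR (γ i)) (t i) * ((Yt (n i) (QR (γ i)) (t i))⁻¹ * X i) = X i := by
      intro i
      rw [← Matrix.mul_assoc, Matrix.mul_nonsing_inv _ (Ne.isUnit (hY i)), Matrix.one_mul]
    simp only [h5]
    exact h4

end Pool.Agent.E8helper3.HL
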