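import Pool.Agent.E8helper3.HL.Jac

/-!
# The connection with the solutions at one: both eigenvectors of the pseudoreflection are cyclic
-/

set_option autoImplicit false

open Filter Topology Matrix Polynomial

namespace Pool.Agent.E8helper3.HL

open Pool.Agent.Y119.HY Pool.Agent.E8helper3.HO

variable {n : ℕ} {Q : Polynomial ℚ}

/-- **the connection with the solutions at one** -/
theorem conn_data (hQ : QE n Q) (hQ' : QE n (dual n Q)) (h0 : rh n Q ≠ 0) (hρ : ∀ k : ℕ, ((k : ℂ) + 1) ^ 2 - rh n Q ^ 2 ≠ 0) :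
    ∃ (K : ℕ → Matrix (Fin n) (Fin n) ℂ) (M Mi : Matrix (Fin n) (Fin n) ℂ), Sol (rh n Q • Tm n Q) (-cm (Am n)) K ∧
      (∀ i j, PG fun k => K k i j) ∧ M * Mi = 1 ∧ Mi * M = 1 ∧
      ∀ z ∈ Lens, Yn n Q z = Zf (Tm n Q) (rh n Q) K (1 - z) * M := by
  have hn := hQ.two
  have hT := Tm_sq (Q := Q) (by omega : 1 ≤ n) h0
  have hN := cm_Bm_sq (Q := Q) (by omega : 1 ≤ n)
  obtain ⟨K, hK'⟩ := exists_sol' hN hρ (-cm (Am n))
  have hg := fun i j => growth' hN hρ hK' i j
  have hK : Sol (rh n Q • Tm n Q) (-cm (Am n)) K := by rw [rh_Tm h0]; exact hK'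
  set Z : ℂ → Matrix (Fin n) (Fin n) ℂ := fun z => Zf (Tm n Q) (rh n Q) K (1 - z) with hZ
  have hZd : ∀ z ∈ Lens, HD Z (Gm (cm (Am n)) (cm (Bm n Q)) z * Z z) z := by
    intro z hz
    have hz' := symm_Lens hz
    have h1 := Zf_ode hT hK hg (mem_Lens.1 hz').1 (slit_Lens hz')
    have h2 : HasDerivAt (fun w : ℂ => 1 - w) (-1) z := by
      simpa using (hasDerivAt_id z).const_sub 1
    refine (h1.comp h2).congr ?_
    rw [hZ, ← smul_mul_assoc]
    congr 1
    unfold Gm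
    rw [sub_sub_cancel, smul_neg, rh_Tm h0, smul_neg]
    rw [← neg_add, neg_smul, one_smul, neg_neg, add_comm]
  -- a point where the solution is invertible
  obtain ⟨z₀, hz₀, hz₀'⟩ : ∃ z₀ ∈ Lens, (Z z₀).det ≠ 0 := by
    have hcont : ContinuousAt (fun w : ℂ => (Hf K w).det) 0 := by
      have h1 : ContinuousAt (fun w : ℂ => Hf K w) 0 := by
        refine continuousAt_pi.2 fun i => continuousAt_pi.2 fun j => ?_
        exact (Hf_an' hg i j 0 (Metric.mem_ball_self one_pos)).continuousAt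
      exact (Continuous.matrix_det continuous_id).continuousAt.comp h1
    have h1 : (Hf K 0).det ≠ 0 := by
      rw [Hf_zero hK, det_one]
      exact one_ne_zero
    have h2 : ∀ᶠ w : ℂ in 𝓝 0, (Hf K w).det ≠ 0 := hcont.eventually_ne h1
    have hof : Tendsto (fun x : ℝ => (x : ℂ)) (𝓝[>] 0) (𝓝 0) :=
      tendsto_nhdsWithin_of_tendsto_nhds (by
        have := Complex.continuous_ofReal.tendsto 0
        simpa using this)
    have h3 : ∀ᶠ x : ℝ in 𝓝[>] 0, x < 1 := tendsto_nhdsWithin_of_tendsto_nhds tendsto_id (gt_mem_nhds one_pos)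
    obtain ⟨x, hx⟩ := ((hof.eventually h2).and (h3.and self_mem_nhdsWithin)).exists
    obtain ⟨hx1, hx2, hx3⟩ := hx
    have hx3' : 0 < x := hx3
    refine ⟨((1 - x : ℝ) : ℂ), real_mem_Lens (by linarith) (by linarith), ?_⟩
    rw [hZ]
    simp only
    unfold Zf
    have e1 : (1 - (((1 - x : ℝ)) : ℂ)) = (x : ℂ) := by push_cast; ring
    rw [e1, det_mul]
    refine mul_ne_zero hx1 ?_
    intro h4
    have h5 := congrArg Matrix.det (WW_mul_neg (ρ := rh n Q) hT (Complex.log (x : ℂ)))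
    rw [det_mul, h4, zero_mul, det_one] at h5
    exact zero_ne_one h5
  have hZu : IsUnit (Z z₀).det := Ne.isUnit hz₀'
  have hYu : IsUnit (Yn n Q z₀).det := Ne.isUnit (Yn_det hQ hQ' hz₀)
  set M := (Z z₀)⁻¹ * Yn n Q z₀ with hM
  set Mi := (Yn n Q z₀)⁻¹ * Z z₀ with hMi
  have hMMi : M * Mi = 1 := by
    calc M * Mi = (Z z₀)⁻¹ * (Yn n Q z₀ * (Yn n Q z₀)⁻¹) * Z z₀ := by rw [hM, hMi]; simp only [Matrix.mul_assoc]
      _ = 1 := by rw [mul_nonsing_inv _ hYu, mul_one, nonsing_inv_mul _ hZu]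
  have hMiM : Mi * M = 1 := mul_eq_one_comm.1 hMMi
  have hYd := fun z (hz : z ∈ Lens) => Yf_ode (sol_c hQ) Ac_nil (mem_Lens.1 hz).1 (slit_Lens hz)
  refine ⟨K, M, Mi, hK, hg, hMMi, hMiM, ?_⟩
  intro z hz
  have h1 : ∀ z ∈ Lens, HD (fun z => Yn n Q z - Z z * M)
      (Gm (cm (Am n)) (cm (Bm n Q)) z * (Yn n Q z - Z z * M)) z := by
    intro z hz i j
    have h2 := hYd z hz i j
    have h3 := ((hZd z hz).mul (HD.const M z)) i j
    refine (h2.sub h3).congr_deriv ?_
    rw [mul_sub, Matrix.sub_apply, Matrix.add_apply, Matrix.mul_zero, Matrix.zero_apply, add_zero, Matrix.mul_assoc]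
  have h2 := sol_zero hQ hQ' h1 hz₀ (by
    rw [hM, ← Matrix.mul_assoc, mul_nonsing_inv _ hZu, one_mul, sub_self]) hz
  exact sub_eq_zero.1 h2

/-- the projection as a product -/
lemma Tm_vec : Tm n Q = vecMulVec (uc n) ((-(rh n Q)⁻¹) • fun j : Fin n => ((Q.coeff j : ℚ) : ℂ)) := by
  unfold Tm
  have h : cm (Bm n Q) = vecMulVec (uc n) (fun j : Fin n => ((Q.coeff j : ℚ) : ℂ)) := by
    ext i j
    rw [cm_apply, vecMulVec_apply]
    unfold Bm uc
    rw [Matrix.of_apply]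
    split_ifs <;> simp
  rw [h, vecMulVec_smul]
  module

/-- determinants of pseudoreflections -/
lemma det_vec (a b : Fin n → ℂ) : (1 + vecMulVec a b).det = 1 + b ⬝ᵥ a := by
  have h := det_one_add_replicateCol_mul_replicateRow (ι := Unit) a b
  rw [← h]
  congr 2
  ext i j
  simp [vecMulVec_apply, Matrix.mul_apply]

lemma uc_dot (hn : 1 ≤ n) (w : Fin n → ℂ) : w ⬝ᵥ uc n = w ⟨n - 1, by omega⟩ := by
  unfold dotProduct uc
  rw [Finset.sum_eq_single (⟨n - 1, by omega⟩ : Fin n)]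
  · rw [if_pos (show n - 1 + 1 = n by omega), mul_one]
  · intro b _ hb
    rw [if_neg (fun h => hb (Fin.ext (by simp only; omega))), mul_zero]
  · intro h
    exact absurd (Finset.mem_univ _) h

lemma WW_det (hn : 1 ≤ n) (h0 : rh n Q ≠ 0) (s : ℂ) : (WW (Tm n Q) (rh n Q) s).det = Complex.exp (rh n Q * s) := by
  unfold WW
  rw [Tm_vec, ← vecMulVec_smul, det_vec, uc_dot hn]
  have h1 : (((-Q.coeff (n - 1) : ℚ)) : ℂ) = rh n Q := rfl
  have h2 : ((Q.coeff (n - 1) : ℚ) : ℂ) = -rh n Q := by rw [← h1]; push_cast; ring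
  simp only [Pi.smul_apply, smul_eq_mul]
  rw [h2]
  field_simp
  ring

/-- determinants of analytic matrices -/
lemma det_an {U : Set ℂ} {X : ℂ → Matrix (Fin n) (Fin n) ℂ} (hX : ∀ i j, AnalyticOnNhd ℂ (fun z => X z i j) U) :
    AnalyticOnNhd ℂ (fun z => (X z).det) U := by
  simp only [Matrix.det_apply']
  refine Finset.analyticOnNhd_fun_sum _ fun σ _ => ?_
  refine analyticOnNhd_const.mul ?_
  exact Finset.analyticOnNhd_fun_prod _ fun i _ => hX _ _

lemma adj_an {U : Set ℂ} {X : ℂ → Matrix (Fin n) (Fin n) ℂ} (hX : ∀ i j, AnalyticOnNhd ℂ (fun z => X z i j) U) (i j : Fin n) :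
    AnalyticOnNhd ℂ (fun z => (X z).adjugate i j) U := by
  simp only [Matrix.adjugate_apply]
  refine det_an fun a b => ?_
  simp only [Matrix.updateRow_apply]
  split_ifs
  · exact analyticOnNhd_const
  · exact hX a b

/-- the holomorphic part at one has determinant one -/
lemma K_det (hQ : QE n Q) (h0 : rh n Q ≠ 0) {K : ℕ → Matrix (Fin n) (Fin n) ℂ} {M : Matrix (Fin n) (Fin n) ℂ}
    (hK : Sol (rh n Q • Tm n Q) (-cm (Am n)) K) (hg : ∀ i j, PG fun k => K k i j)
    (hconn : ∀ z ∈ Lens, Yn n Q z = Zf (Tm n Q) (rh n Q) K (1 - z) * M) {s : ℂ} (hs : ‖s‖ < 1) : (Hf K s).det = 1 := by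
  have hn := hQ.two
  have h1 : ∀ s ∈ Lens, (Hf K s).det * M.det = 1 := by
    intro s hs
    have hs' := symm_Lens hs
    have h2 := congrArg Matrix.det (hconn _ hs')
    rw [Yn_det_eq hQ hs', sub_sub_cancel] at h2
    unfold Zf at h2
    rw [det_mul, det_mul, WW_det (by omega) h0] at h2
    have h3 := Complex.exp_ne_zero (rh n Q * Complex.log s)
    have h4 : Complex.exp (rh n Q * Complex.log s) * ((Hf K s).det * M.det - 1) = 0 := by linear_combination -h2
    exact sub_eq_zero.1 ((mul_eq_zero.1 h4).resolve_left h3)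
  have han : AnalyticOnNhd ℂ (fun s => (Hf K s).det * M.det) (Metric.ball 0 1) :=
    (det_an fun i j => Hf_an' hg i j).mul analyticOnNhd_const
  have hhalf : ((1 / 2 : ℝ) : ℂ) ∈ Lens := real_mem_Lens (by norm_num) (by norm_num)
  have h2 : Set.EqOn (fun s => (Hf K s).det * M.det) (fun _ => (1 : ℂ)) (Metric.ball 0 1) := by
    refine han.eqOn_of_preconnected_of_eventuallyEq analyticOnNhd_const (convex_ball _ _).isPreconnected hhalf.1 ?_
    filter_upwards [isOpen_Lens.mem_nhds hhalf] with w hw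
    exact h1 w hw
  have h3 : M.det = 1 := by
    have h4 := h2 (Metric.mem_ball_self one_pos)
    simp only at h4
    rwa [Hf_zero hK, det_one, one_mul] at h4
  have h4 := h2 (show s ∈ Metric.ball (0 : ℂ) 1 by rwa [Metric.mem_ball, dist_zero_right])
  simp only at h4
  rwa [h3, mul_one] at h4

lemma Jd_ec (hn : 1 ≤ n) : Jd n Q *ᵥ ec n = ((-1 : ℂ) ^ (n - 1) * (((dual n Q).coeff 0 : ℚ) : ℂ)) • uc n := by
  ext i
  rw [mv_apply, Finset.sum_eq_single (⟨0, by omega⟩ : Fin n)]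
  · unfold ec uc Jd
    rw [if_pos rfl, mul_one, cm_apply, Pi.smul_apply, smul_eq_mul]
    unfold Jm
    rw [Matrix.of_apply]
    by_cases hi : (i : ℕ) + 1 = n
    · rw [if_pos hi, if_pos (by simp only; omega), mul_one]
      have e1 : (i : ℕ) = n - 1 := by omega
      have e2 : n - 1 + 0 + 1 - n = 0 := by omega
      simp only [e1, e2]
      push_cast
      rfl
    · rw [if_neg hi, if_neg (by have := i.2; simp only; omega)]
      simp
  · intro b _ hb
    unfold ec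
    rw [if_neg (fun h => hb (Fin.ext h)), mul_zero]
  · intro h
    exact absurd (Finset.mem_univ _) h

/-- **the axis of the pseudoreflection is a cyclic vector** -/
theorem axis_ne (hQ : QE n Q) (hQ' : QE n (dual n Q)) (h0 : rh n Q ≠ 0) {K : ℕ → Matrix (Fin n) (Fin n) ℂ}
    {M Mi : Matrix (Fin n) (Fin n) ℂ} (hK : Sol (rh n Q • Tm n Q) (-cm (Am n)) K) (hg : ∀ i j, PG fun k => K k i j)
    (hMMi : M * Mi = 1) (hconn : ∀ z ∈ Lens, Yn n Q z = Zf (Tm n Q) (rh n Q) K (1 - z) * M) :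
    (Mi *ᵥ uc n) ⟨n - 1, by have := hQ.two; omega⟩ ≠ 0 := by
  have hn := hQ.two
  intro hcon
  have hMiM : Mi * M = 1 := mul_eq_one_comm.1 hMMi
  have hT := Tm_sq (Q := Q) (by omega : 1 ≤ n) h0
  set r : Fin n → ℂ := fun j => Mi ⟨n - 1, by omega⟩ j with hr
  have hrT : r ᵥ* Tm n Q = 0 := by
    rw [Tm_vec, vecMul_vecMulVec]
    have : r ⬝ᵥ uc n = 0 := hcon
    rw [this, zero_smul]
  -- the last row of the inverse
  have hinv : ∀ z ∈ Lens, Mi * WW (Tm n Q) (rh n Q) (-Complex.log (1 - z)) * (Hf K (1 - z)).adjugate * Yn n Q z = 1 := by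
    intro z hz
    have h1 : (Hf K (1 - z)).adjugate * Hf K (1 - z) = 1 := by
      rw [adjugate_mul, K_det hQ h0 hK hg hconn (mem_Lens.1 hz).2, one_smul]
    have h2 : WW (Tm n Q) (rh n Q) (-Complex.log (1 - z)) * WW (Tm n Q) (rh n Q) (Complex.log (1 - z)) = 1 :=
      mul_eq_one_comm.1 (WW_mul_neg hT _)
    rw [hconn z hz]
    unfold Zf
    calc Mi * WW (Tm n Q) (rh n Q) (-Complex.log (1 - z)) * (Hf K (1 - z)).adjugate *
          (Hf K (1 - z) * WW (Tm n Q) (rh n Q) (Complex.log (1 - z)) * M) =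
        Mi * (WW (Tm n Q) (rh n Q) (-Complex.log (1 - z)) * (((Hf K (1 - z)).adjugate * Hf K (1 - z)) *
          WW (Tm n Q) (rh n Q) (Complex.log (1 - z)))) * M := by simp only [Matrix.mul_assoc]
      _ = 1 := by rw [h1, one_mul, h2, mul_one, hMiM]
  have hrow : ∀ z ∈ Lens, (r ᵥ* (Hf K (1 - z)).adjugate) ᵥ* Yn n Q z = fun j => (1 : Matrix (Fin n) (Fin n) ℂ) ⟨n - 1, by omega⟩ j := by
    intro z hz
    have h1 := congrFun (hinv z hz) ⟨n - 1, by omega⟩
    have h2 : (Mi * WW (Tm n Q) (rh n Q) (-Complex.log (1 - z)) * (Hf K (1 - z)).adjugate * Yn n Q z) ⟨n - 1, by omega⟩ =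
        (((r ᵥ* WW (Tm n Q) (rh n Q) (-Complex.log (1 - z))) ᵥ* (Hf K (1 - z)).adjugate) ᵥ* Yn n Q z) := rfl
    rw [h2] at h1
    have h3 : r ᵥ* WW (Tm n Q) (rh n Q) (-Complex.log (1 - z)) = r := by
      unfold WW
      rw [vecMul_add, vecMul_one, vecMul_smul, hrT, smul_zero, add_zero]
    rw [h3] at h1
    exact h1
  -- the dual solution
  set J := Jd n Q with hJ
  have hJu : IsUnit J.det := Ne.isUnit (Jd_det' hQ)
  set κ : ℂ := (-1 : ℂ) ^ (n - 1) * (((dual n Q).coeff 0 : ℚ) : ℂ) with hκ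
  have hdual : ∀ z ∈ Lens, Hf (Hc n (dual n Q)) z *ᵥ ec n = κ • (J⁻¹ *ᵥ (r ᵥ* (Hf K (1 - z)).adjugate)) := by
    intro z hz
    have h1 := pair_dual hQ hQ' hz
    set Y := Yn n Q z
    set Ys := Yn n (dual n Q) z with hYs
    have e1 : Hf (Hc n (dual n Q)) z *ᵥ ec n = Ys *ᵥ ec n := by
      rw [hYs]
      unfold Yn Yf
      rw [← mulVec_mulVec, E_fix (Ac_ec n)]
    rw [e1]
    set y := r ᵥ* (Hf K (1 - z)).adjugate with hy
    have h2 : y ᵥ* Y = fun j => (1 : Matrix (Fin n) (Fin n) ℂ) ⟨n - 1, by omega⟩ j := hrow z hz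
    have h3 : Y.transpose *ᵥ (J *ᵥ (Ys *ᵥ ec n)) = κ • uc n := by
      rw [mulVec_mulVec, mulVec_mulVec, h1, Jd_ec (by omega)]
    have h4 : Y.transpose *ᵥ y = uc n := by
      rw [mulVec_transpose, h2]
      ext j
      unfold uc
      rw [Matrix.one_apply]
      by_cases hj : (j : ℕ) + 1 = n
      · rw [if_pos hj, if_pos (Fin.ext (by simp only; omega))]
      · rw [if_neg hj, if_neg]
        intro h
        apply hj
        rw [← h]
        simp only
        omega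
    have hYu : IsUnit Y.transpose.det := by
      rw [det_transpose]
      exact Ne.isUnit (Yn_det hQ hQ' hz)
    have h5 : J *ᵥ (Ys *ᵥ ec n) = κ • y := by
      have h6 : Y.transpose *ᵥ (J *ᵥ (Ys *ᵥ ec n)) = Y.transpose *ᵥ (κ • y) := by
        rw [h3, mulVec_smul, h4]
      have h7 := congrArg (fun w => Y.transpose⁻¹ *ᵥ w) h6
      simp only [mulVec_mulVec] at h7
      rw [nonsing_inv_mul _ hYu, one_mulVec, ← Matrix.mul_assoc, nonsing_inv_mul _ hYu, one_mul, ← mulVec_mulVec] at h7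
      exact h7
    have h8 := congrArg (fun w => J⁻¹ *ᵥ w) h5
    rw [mulVec_mulVec, nonsing_inv_mul _ hJu, one_mulVec, mulVec_smul] at h8
    exact h8
  refine sing hQ' (fun z => (κ • (J⁻¹ *ᵥ (r ᵥ* (Hf K (1 - z)).adjugate))) ⟨0, by omega⟩) ?_ fun z hz => by
    rw [hdual z hz]
  simp only [Pi.smul_apply, smul_eq_mul, Matrix.mulVec, Matrix.vecMul, dotProduct]
  refine analyticOnNhd_const.mul (Finset.analyticOnNhd_fun_sum _ fun j _ => analyticOnNhd_const.mul ?_)
  refine Finset.analyticOnNhd_fun_sum _ fun l _ => analyticOnNhd_const.mul ?_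
  intro z hz
  have h3 : AnalyticAt ℂ (fun w => (Hf K w).adjugate l j) (1 - z) := adj_an (U := Metric.ball 0 1) (fun a b => Hf_an' hg a b) l j (1 - z) (by
    rw [Metric.mem_ball, dist_comm, dist_eq_norm] at hz
    rwa [Metric.mem_ball, dist_zero_right])
  have h4 : AnalyticAt ℂ (fun w : ℂ => 1 - w) z := analyticAt_const.sub analyticAt_id
  exact h3.fun_comp h4

end Pool.Agent.E8helper3.HL
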