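import Pool.Agent.E8helper3.HO.GrpO
import Mathlib.LinearAlgebra.Matrix.Transvection

/-!
# Closed monoids which contain a pseudoreflection and are normalised by a regular unipotent group contain `SL_n`
-/

set_option autoImplicit false
set_option linter.unusedSectionVars false

open Matrix

namespace Pool.Agent.E8helper3.HL

open Pool.Agent.Y119.HY (E E_exp E_add E_zero E_mul_neg chain_li) 
open Pool.Agent.E8helper3.HO

variable {n : ℕ}

lemma vs1 (v a φ : Fin n → ℂ) (s : ℂ) : vecMulVec v (a - s • φ) = vecMulVec v a - s • vecMulVec v φ := by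
  ext i j
  simp only [Matrix.sub_apply, Matrix.smul_apply, vecMulVec_apply, Pi.sub_apply, Pi.smul_apply, smul_eq_mul]
  ring

lemma vs2 (w v φ : Fin n → ℂ) (s : ℂ) : vecMulVec (w - s • v) φ = vecMulVec w φ - s • vecMulVec v φ := by
  ext i j
  simp only [Matrix.sub_apply, Matrix.smul_apply, vecMulVec_apply, Pi.sub_apply, Pi.smul_apply, smul_eq_mul]
  ring

/-! ### cyclic vectors -/

/-- a submodule of vectors which is stable under `N` and contains a cyclic vector -/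
lemma cyc_all {N : Matrix (Fin n) (Fin n) ℂ} (hN : N ^ n = 0) {v : Fin n → ℂ} (hv : (N ^ (n - 1)) *ᵥ v ≠ 0)
    {U : Submodule ℂ (Fin n → ℂ)} (hvU : v ∈ U) (hU : ∀ x ∈ U, N *ᵥ x ∈ U) (x : Fin n → ℂ) : x ∈ U := by
  have h1 : ∀ j : ℕ, (N ^ j) *ᵥ v ∈ U := by
    intro j
    induction j with
    | zero => rwa [pow_zero, one_mulVec]
    | succ j ih =>
      rw [pow_succ', ← mulVec_mulVec]
      exact hU _ ih
  have h2 : U = ⊤ := by
    rw [eq_top_iff, ← (chain_li hN hv).span_eq_top_of_card_eq_finrank' (by simp)]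
    rw [Submodule.span_le]
    rintro _ ⟨i, rfl⟩
    exact h1 i
  rw [h2]
  trivial

lemma cyc_all' {N : Matrix (Fin n) (Fin n) ℂ} (hN : N ^ n = 0) {φ : Fin n → ℂ} (hφ : φ ᵥ* (N ^ (n - 1)) ≠ 0)
    {U : Submodule ℂ (Fin n → ℂ)} (hφU : φ ∈ U) (hU : ∀ x ∈ U, x ᵥ* N ∈ U) (x : Fin n → ℂ) : x ∈ U := by
  refine cyc_all (N := N.transpose) (v := φ) ?_ ?_ hφU (fun x hx => ?_) x
  · rw [← transpose_pow, hN, transpose_zero]
  · rw [← transpose_pow, mulVec_transpose]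
    exact hφ
  · rw [mulVec_transpose]
    exact hU x hx

section lie

attribute [local instance] Matrix.linftyOpNormedRing Matrix.linftyOpNormedAlgebra

variable [NeZero n]

local instance : CompleteSpace (Matrix (Fin n) (Fin n) ℂ) := FiniteDimensional.complete ℂ _

variable {S : Submonoid (Matrix (Fin n) (Fin n) ℂ)} {hS : IsClosed (S : Set (Matrix (Fin n) (Fin n) ℂ))}

/-- the exponential of a matrix with square zero -/
lemma exp_sq_zero {X : Matrix (Fin n) (Fin n) ℂ} (hn : 2 ≤ n) (hX : X * X = 0) : NormedSpace.exp X = 1 + X := by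
  obtain ⟨m, hm⟩ := Nat.exists_eq_add_of_le' hn
  have hXn : X ^ n = 0 := by
    have h0 : X ^ n = X ^ (m + 2) := congrArg (fun k => X ^ k) hm
    rw [h0, pow_add, pow_two, hX, mul_zero]
  have h1 := E_exp hXn 1
  rw [one_smul] at h1
  rw [← h1]
  unfold E
  rw [show Finset.range n = Finset.range (m + 1 + 1) by rw [hm], Finset.sum_range_succ', Finset.sum_range_succ',
    Finset.sum_eq_zero fun i _ => by rw [pow_add X (i + 1) 1, pow_add X i 1, pow_one, Matrix.mul_assoc, hX, mul_zero, smul_zero]]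
  simp [add_comm]

/-- **the special linear group** -/
theorem sl_mem (hn : 2 ≤ n) (hL : ∀ X : Matrix (Fin n) (Fin n) ℂ, X.trace = 0 → X ∈ LieOf S hS)
    {g : Matrix (Fin n) (Fin n) ℂ} (hg : g.det = 1) : g ∈ S := by
  have hexp : ∀ X : Matrix (Fin n) (Fin n) ℂ, X.trace = 0 → NormedSpace.exp X ∈ S := by
    intro X hX
    have := hL X hX 1
    rwa [one_smul] at this
  have htr : ∀ t : TransvectionStruct (Fin n) ℂ, t.toMatrix ∈ S := by
    intro t
    have h1 : (Matrix.single t.i t.j t.c : Matrix (Fin n) (Fin n) ℂ) * Matrix.single t.i t.j t.c = 0 := by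
      rw [Matrix.single_mul_single_of_ne]
      exact fun h => t.hij h.symm
    have h2 := exp_sq_zero hn h1
    have h3 : t.toMatrix = NormedSpace.exp (Matrix.single t.i t.j t.c : Matrix (Fin n) (Fin n) ℂ) := by
      rw [h2]
      rfl
    rw [h3]
    refine hexp _ ?_
    rw [Matrix.trace]
    refine Finset.sum_eq_zero fun i _ => ?_
    rw [Matrix.diag_apply, Matrix.single_apply, if_neg]
    rintro ⟨h4, h5⟩
    exact t.hij (h4.trans h5.symm)
  have hlist : ∀ L : List (TransvectionStruct (Fin n) ℂ), (L.map TransvectionStruct.toMatrix).prod ∈ S := by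
    intro L
    refine S.list_prod_mem fun x hx => ?_
    obtain ⟨t, -, rfl⟩ := List.mem_map.1 hx
    exact htr t
  obtain ⟨L, L', D, h⟩ := Matrix.Pivot.exists_list_transvec_mul_diagonal_mul_list_transvec g
  have hD : ∏ i, D i = 1 := by
    rw [h, det_mul, det_mul, TransvectionStruct.det_toMatrix_prod, TransvectionStruct.det_toMatrix_prod, one_mul, mul_one,
      det_diagonal] at hg
    exact hg
  have hD0 : ∀ i, D i ≠ 0 := by
    intro i h0
    have := Finset.prod_eq_zero (Finset.mem_univ i) h0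
    rw [hD] at this
    exact one_ne_zero this
  have hdiag : diagonal D ∈ S := by
    have i0 : Fin n := ⟨0, by omega⟩
    set d : Fin n → ℂ := fun i => if i = i0 then -∑ j ∈ Finset.univ.erase i0, Complex.log (D j) else Complex.log (D i) with hd
    have h1 : diagonal D = NormedSpace.exp (diagonal d) := by
      rw [Matrix.exp_diagonal]
      congr 1
      funext i
      rw [Pi.coe_exp, ← Complex.exp_eq_exp_ℂ]
      by_cases hi : i = i0
      · rw [hd]
        simp only [hi, if_true]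
        rw [Complex.exp_neg, Complex.exp_sum]
        have h2 : ∏ j ∈ Finset.univ.erase i0, Complex.exp (Complex.log (D j)) = ∏ j ∈ Finset.univ.erase i0, D j :=
          Finset.prod_congr rfl fun j _ => Complex.exp_log (hD0 j)
        rw [h2]
        have h3 := Finset.mul_prod_erase Finset.univ D (Finset.mem_univ i0)
        rw [hD] at h3
        exact eq_inv_of_mul_eq_one_left h3
      · rw [hd]
        simp only [if_neg hi]
        exact (Complex.exp_log (hD0 i)).symm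
    rw [h1]
    refine hexp _ ?_
    rw [Matrix.trace_diagonal, ← Finset.add_sum_erase Finset.univ d (Finset.mem_univ i0)]
    have h2 : ∑ i ∈ Finset.univ.erase i0, d i = ∑ i ∈ Finset.univ.erase i0, Complex.log (D i) := by
      refine Finset.sum_congr rfl fun i hi => ?_
      rw [hd]
      simp only [if_neg (Finset.ne_of_mem_erase hi)]
    rw [h2, hd]
    simp
  rw [h]
  exact S.mul_mem (S.mul_mem (hlist L) hdiag) (hlist L')

/-- rank one matrices with respect to a projection -/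
theorem tr_mem {v φ : Fin n → ℂ} (hφv : φ ⬝ᵥ v = 1) {L : Submodule ℂ (Matrix (Fin n) (Fin n) ℂ)}
    (hbr : ∀ X ∈ L, ∀ Y ∈ L, X * Y - Y * X ∈ L) (h1 : ∀ ψ : Fin n → ℂ, ψ ⬝ᵥ v = 0 → vecMulVec v ψ ∈ L)
    (h2 : ∀ w : Fin n → ℂ, φ ⬝ᵥ w = 0 → vecMulVec w φ ∈ L) (X : Matrix (Fin n) (Fin n) ℂ) (hX : X.trace = 0) : X ∈ L := by
  set p := vecMulVec v φ with hp
  have h3 : ∀ w ψ : Fin n → ℂ, φ ⬝ᵥ w = 0 → ψ ⬝ᵥ v = 0 → vecMulVec w ψ - (ψ ⬝ᵥ w) • p ∈ L := by
    intro w ψ hw hψ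
    have h := hbr _ (h2 w hw) _ (h1 ψ hψ)
    rw [vecMulVec_mul_vecMulVec, vecMulVec_mul_vecMulVec, hφv, one_smul, vecMulVec_smul] at h
    exact h
  have h4 : ∀ w ψ : Fin n → ℂ, vecMulVec w ψ - (ψ ⬝ᵥ w) • p ∈ L := by
    intro w ψ
    set α := φ ⬝ᵥ w with hα
    set β := ψ ⬝ᵥ v with hβ
    set w' := w - α • v with hw'
    set ψ' := ψ - β • φ with hψ'
    have e1 : φ ⬝ᵥ w' = 0 := by
      rw [hw', dotProduct_sub, dotProduct_smul, hφv, ← hα, smul_eq_mul, mul_one, sub_self]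
    have e2 : ψ' ⬝ᵥ v = 0 := by
      rw [hψ', sub_dotProduct, smul_dotProduct, hφv, ← hβ, smul_eq_mul, mul_one, sub_self]
    have h5 := h3 w' ψ' e1 e2
    have h6 := L.smul_mem β (h2 w' e1)
    have h7 := L.smul_mem α (h1 ψ' e2)
    have h8 : vecMulVec w ψ - (ψ ⬝ᵥ w) • p = (vecMulVec w' ψ' - (ψ' ⬝ᵥ w') • p) + β • vecMulVec w' φ + α • vecMulVec v ψ' := by
      have e3 : w = w' + α • v := by rw [hw', sub_add_cancel]
      have e4 : ψ = ψ' + β • φ := by rw [hψ', sub_add_cancel]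
      have e5 : ψ ⬝ᵥ w = ψ' ⬝ᵥ w' + α * β := by
        rw [e3, e4, add_dotProduct, dotProduct_add, dotProduct_add, smul_dotProduct, smul_dotProduct, dotProduct_smul,
          dotProduct_smul, e1, e2, hφv]
        simp only [smul_eq_mul]
        ring
      rw [e5]
      conv_lhs => rw [e3, e4]
      rw [hp]
      ext i j
      simp only [Matrix.sub_apply, Matrix.add_apply, Matrix.smul_apply, vecMulVec_apply, Pi.add_apply, Pi.smul_apply, smul_eq_mul]
      ring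
    rw [h8]
    exact L.add_mem (L.add_mem h5 h6) h7
  have h5 : X = ∑ j, (vecMulVec (fun i => X i j) (Pi.single j 1) - ((Pi.single j 1 : Fin n → ℂ) ⬝ᵥ fun i => X i j) • p) := by
    rw [Finset.sum_sub_distrib, ← Finset.sum_smul]
    have h6 : ∑ j, ((Pi.single j 1 : Fin n → ℂ) ⬝ᵥ fun i => X i j) = 0 := by
      rw [← hX, Matrix.trace]
      refine Finset.sum_congr rfl fun j _ => ?_
      rw [single_dotProduct, one_mul]
      rfl
    rw [h6, zero_smul, sub_zero]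
    ext a b
    rw [Matrix.sum_apply]
    simp only [vecMulVec_apply, Pi.single_apply, mul_ite, mul_one, mul_zero, Finset.sum_ite_eq, Finset.mem_univ, if_true]
  rw [h5]
  exact L.sum_mem fun j _ => h4 _ _

variable {N : Matrix (Fin n) (Fin n) ℂ}

/-- **Pseudoreflections of order at least three.** -/
theorem lin_lie (hN : N ^ n = 0) {v φ : Fin n → ℂ} (hφv : φ ⬝ᵥ v = 1) (hv : (N ^ (n - 1)) *ᵥ v ≠ 0)
    (hφ : φ ᵥ* (N ^ (n - 1)) ≠ 0) {c : ℂ} (hc0 : c ≠ 0) (hc : c ^ 2 ≠ 1)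
    (hE : ∀ c : ℂ, ∀ g ∈ S, E N c * g * E N (-c) ∈ S) (h1 : 1 + (c - 1) • vecMulVec v φ ∈ S)
    (h2 : 1 + (c⁻¹ - 1) • vecMulVec v φ ∈ S) (X : Matrix (Fin n) (Fin n) ℂ) (hX : X.trace = 0) : X ∈ LieOf S hS := by
  set p := vecMulVec v φ with hp
  set L := LieOf S hS with hL
  have hpp : p * p = p := by
    rw [hp, vecMulVec_mul_vecMulVec, hφv, one_smul]
  set h := 1 + (c - 1) • p with hh
  set hi := 1 + (c⁻¹ - 1) • p with hhi
  have hhhi : h * hi = 1 := by
    rw [hh, hhi, add_mul, mul_add, mul_add, one_mul, one_mul, mul_one, smul_mul_smul_comm, hpp]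
    have : (c - 1) * (c⁻¹ - 1) = 2 - c - c⁻¹ := by field_simp; ring
    rw [this]
    module
  have hhih : hi * h = 1 := mul_eq_one_comm.1 hhhi
  -- the conjugates
  have hcj : ∀ Y : Matrix (Fin n) (Fin n) ℂ, h * Y * hi - Y =
      (c - 1) • (p * Y - p * Y * p) + (c⁻¹ - 1) • (Y * p - p * Y * p) := by
    intro Y
    rw [hh, hhi]
    simp only [add_mul, mul_add, one_mul, mul_one, smul_mul_assoc, mul_smul_comm, smul_add, smul_smul]
    have : (c - 1) * (c⁻¹ - 1) = 2 - c - c⁻¹ := by field_simp; ring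
    rw [mul_comm (c⁻¹ - 1), this]
    module
  have hcj2 : ∀ Y : Matrix (Fin n) (Fin n) ℂ, h * (h * Y * hi - Y) * hi =
      (c * (c - 1)) • (p * Y - p * Y * p) + (c⁻¹ * (c⁻¹ - 1)) • (Y * p - p * Y * p) := by
    intro Y
    have e1 := hcj Y
    have e2 := hcj (h * Y * hi - Y)
    have e3 : p * (h * Y * hi - Y) = (c - 1) • (p * Y - p * Y * p) := by
      rw [e1, mul_add, mul_smul_comm, mul_smul_comm, mul_sub, mul_sub, ← Matrix.mul_assoc, ← Matrix.mul_assoc,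
        ← Matrix.mul_assoc, ← Matrix.mul_assoc, hpp, sub_self, smul_zero, add_zero]
    have e4 : (h * Y * hi - Y) * p = (c⁻¹ - 1) • (Y * p - p * Y * p) := by
      rw [e1, add_mul, smul_mul_assoc, smul_mul_assoc, sub_mul, sub_mul, Matrix.mul_assoc (p * Y), Matrix.mul_assoc Y, hpp,
        sub_self, smul_zero, zero_add]
    have e5 : p * (h * Y * hi - Y) * p = 0 := by
      rw [e3, smul_mul_assoc, sub_mul, Matrix.mul_assoc (p * Y), hpp, sub_self, smul_zero]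
    rw [e5, sub_zero, sub_zero, e3, e4] at e2
    rw [sub_eq_iff_eq_add.1 e2, e1]
    module
  have hcc : (c - 1) * (c - c⁻¹) ≠ 0 := by
    refine mul_ne_zero (fun h => hc ?_) fun h => hc ?_
    · rw [sub_eq_zero.1 h, one_pow]
    · have h3 := sub_eq_zero.1 h
      calc c ^ 2 = c * c := sq c
        _ = c * c⁻¹ := by rw [← h3]
        _ = 1 := mul_inv_cancel₀ hc0
  have hcc' : (c⁻¹ - 1) * (c⁻¹ - c) ≠ 0 := by
    have h3 : (c⁻¹ - 1) * (c⁻¹ - c) = c⁻¹ * ((c - 1) * (c - c⁻¹)) := by field_simp; ring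
    rw [h3]
    exact mul_ne_zero (inv_ne_zero hc0) hcc
  -- the two parts
  have hpart : ∀ Y : Matrix (Fin n) (Fin n) ℂ, h * Y * hi - Y ∈ L →
      p * Y - p * Y * p ∈ L ∧ Y * p - p * Y * p ∈ L := by
    intro Y hY
    have e1 : h * (h * Y * hi - Y) * hi ∈ L := conj_mem_LieOf hhhi hhih (fun s hs => S.mul_mem (S.mul_mem h1 hs) h2) hY
    have e2 := hcj Y
    rw [hcj2 Y] at e1
    rw [e2] at hY
    constructor
    · have e3 := L.sub_mem e1 (L.smul_mem c⁻¹ hY)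
      have e4 : (c * (c - 1)) • (p * Y - p * Y * p) + (c⁻¹ * (c⁻¹ - 1)) • (Y * p - p * Y * p) -
          c⁻¹ • ((c - 1) • (p * Y - p * Y * p) + (c⁻¹ - 1) • (Y * p - p * Y * p)) =
          ((c - 1) * (c - c⁻¹)) • (p * Y - p * Y * p) := by module
      rw [e4] at e3
      exact (Submodule.smul_mem_iff _ hcc).1 e3
    · have e3 := L.sub_mem e1 (L.smul_mem c hY)
      have e4 : (c * (c - 1)) • (p * Y - p * Y * p) + (c⁻¹ * (c⁻¹ - 1)) • (Y * p - p * Y * p) -
          c • ((c - 1) • (p * Y - p * Y * p) + (c⁻¹ - 1) • (Y * p - p * Y * p)) =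
          ((c⁻¹ - 1) * (c⁻¹ - c)) • (Y * p - p * Y * p) := by module
      rw [e4] at e3
      exact (Submodule.smul_mem_iff _ hcc').1 e3
  have hpartL : ∀ Y ∈ L, p * Y - p * Y * p ∈ L ∧ Y * p - p * Y * p ∈ L := by
    intro Y hY
    refine hpart Y (L.sub_mem ?_ hY)
    exact conj_mem_LieOf hhhi hhih (fun s hs => S.mul_mem (S.mul_mem h1 hs) h2) hY
  -- the first elements
  have hX0 : h * N * hi - N ∈ L := by
    have hd : HasDerivAt (fun c : ℂ => h * (E N c * hi * E N (-c))) (h * (N * hi - hi * N)) 0 :=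
      (conj_deriv hN hi).const_mul h
    have h3 : h * (N * hi - hi * N) ∈ L := by
      refine curve_mem_LieOf hd ?_ fun c => S.mul_mem h1 (hE c _ h2)
      simp only [E_zero hN, E_zero' hN, one_mul, mul_one, hhhi]
    have h4 : h * (N * hi - hi * N) = h * N * hi - N := by
      rw [mul_sub, ← Matrix.mul_assoc, ← Matrix.mul_assoc, hhhi, one_mul]
    rwa [h4] at h3
  obtain ⟨hN1, hN2⟩ := hpart N hX0
  -- rank one elements
  have epv : ∀ ψ : Fin n → ℂ, p * vecMulVec v ψ = vecMulVec v ψ := by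
    intro ψ
    rw [hp, vecMulVec_mul_vecMulVec, hφv, one_smul]
  have eph : ∀ w : Fin n → ℂ, vecMulVec w φ * p = vecMulVec w φ := by
    intro w
    rw [hp, vecMulVec_mul_vecMulVec, hφv, one_smul]
  let A : Submodule ℂ (Fin n → ℂ) :=
    { carrier := {ψ | vecMulVec v (ψ - (ψ ⬝ᵥ v) • φ) ∈ L}
      zero_mem' := by
        show vecMulVec v (0 - ((0 : Fin n → ℂ) ⬝ᵥ v) • φ) ∈ L
        rw [zero_dotProduct, zero_smul, sub_zero, vecMulVec_zero]
        exact L.zero_mem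
      add_mem' := by
        intro a b ha hb
        show vecMulVec v (a + b - ((a + b) ⬝ᵥ v) • φ) ∈ L
        have e : a + b - ((a + b) ⬝ᵥ v) • φ = (a - (a ⬝ᵥ v) • φ) + (b - (b ⬝ᵥ v) • φ) := by
          rw [add_dotProduct]
          module
        rw [e, vecMulVec_add]
        exact L.add_mem ha hb
      smul_mem' := by
        intro t a ha
        show vecMulVec v (t • a - ((t • a) ⬝ᵥ v) • φ) ∈ L
        have e : t • a - ((t • a) ⬝ᵥ v) • φ = t • (a - (a ⬝ᵥ v) • φ) := by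
          rw [smul_dotProduct, smul_eq_mul]
          module
        rw [e, vecMulVec_smul]
        exact L.smul_mem t ha }
  have hφA : φ ∈ A := by
    show vecMulVec v (φ - (φ ⬝ᵥ v) • φ) ∈ L
    rw [hφv, one_smul, sub_self, vecMulVec_zero]
    exact L.zero_mem
  have hAN : ∀ ψ ∈ A, ψ ᵥ* N ∈ A := by
    intro ψ hψ
    show vecMulVec v (ψ ᵥ* N - ((ψ ᵥ* N) ⬝ᵥ v) • φ) ∈ L
    have hψ' : vecMulVec v (ψ - (ψ ⬝ᵥ v) • φ) ∈ L := hψ
    set χ := ψ - (ψ ⬝ᵥ v) • φ with hχ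
    have hχv : χ ⬝ᵥ v = 0 := by
      rw [hχ, sub_dotProduct, smul_dotProduct, hφv, smul_eq_mul, mul_one, sub_self]
    have e1 := (hpartL _ (ad_mem hN hE hψ')).1
    have e2 : p * (N * vecMulVec v χ - vecMulVec v χ * N) = (φ ⬝ᵥ (N *ᵥ v)) • vecMulVec v χ - vecMulVec v (χ ᵥ* N) := by
      rw [mul_sub, ← Matrix.mul_assoc p (vecMulVec v χ) N, epv, mul_vecMulVec N, hp, vecMulVec_mul_vecMulVec,
        vecMulVec_smul, vecMulVec_mul]
    rw [e2] at e1
    have e3 : ((φ ⬝ᵥ (N *ᵥ v)) • vecMulVec v χ - vecMulVec v (χ ᵥ* N)) * p = -(((χ ᵥ* N) ⬝ᵥ v) • vecMulVec v φ) := by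
      rw [sub_mul, smul_mul_assoc, hp, vecMulVec_mul_vecMulVec, vecMulVec_mul_vecMulVec, hχv, zero_smul, vecMulVec_zero,
        smul_zero, zero_sub, vecMulVec_smul]
    rw [e3] at e1
    have e4 := L.sub_mem (L.smul_mem (φ ⬝ᵥ (N *ᵥ v)) hψ') e1
    have e5 : (φ ⬝ᵥ (N *ᵥ v)) • vecMulVec v χ - ((φ ⬝ᵥ (N *ᵥ v)) • vecMulVec v χ - vecMulVec v (χ ᵥ* N) -
        -(((χ ᵥ* N) ⬝ᵥ v) • vecMulVec v φ)) = vecMulVec v (χ ᵥ* N - ((χ ᵥ* N) ⬝ᵥ v) • φ) := by
      rw [vs1 v (χ ᵥ* N) φ]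
      module
    rw [e5] at e4
    -- the part of `φ`
    have e6 : p * N - p * N * p = vecMulVec v (φ ᵥ* N - ((φ ᵥ* N) ⬝ᵥ v) • φ) := by
      rw [hp, vecMulVec_mul, vecMulVec_mul_vecMulVec, vs1, vecMulVec_smul]
    rw [e6] at hN1
    have e7 := L.add_mem e4 (L.smul_mem (ψ ⬝ᵥ v) hN1)
    have e8 : ψ ᵥ* N - ((ψ ᵥ* N) ⬝ᵥ v) • φ = (χ ᵥ* N - ((χ ᵥ* N) ⬝ᵥ v) • φ) +
        (ψ ⬝ᵥ v) • (φ ᵥ* N - ((φ ᵥ* N) ⬝ᵥ v) • φ) := by
      have e9 : ψ = χ + (ψ ⬝ᵥ v) • φ := by rw [hχ, sub_add_cancel]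
      have e10 : ψ ᵥ* N = χ ᵥ* N + (ψ ⬝ᵥ v) • (φ ᵥ* N) := by
        conv_lhs => rw [e9]
        rw [add_vecMul, smul_vecMul]
      rw [e10, add_dotProduct, smul_dotProduct, smul_eq_mul]
      module
    rw [e8, vecMulVec_add, vecMulVec_smul]
    exact e7
  let B : Submodule ℂ (Fin n → ℂ) :=
    { carrier := {w | vecMulVec (w - (φ ⬝ᵥ w) • v) φ ∈ L}
      zero_mem' := by
        show vecMulVec (0 - (φ ⬝ᵥ (0 : Fin n → ℂ)) • v) φ ∈ L
        rw [dotProduct_zero, zero_smul, sub_zero, zero_vecMulVec]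
        exact L.zero_mem
      add_mem' := by
        intro a b ha hb
        show vecMulVec (a + b - (φ ⬝ᵥ (a + b)) • v) φ ∈ L
        have e : a + b - (φ ⬝ᵥ (a + b)) • v = (a - (φ ⬝ᵥ a) • v) + (b - (φ ⬝ᵥ b) • v) := by
          rw [dotProduct_add]
          module
        rw [e, add_vecMulVec]
        exact L.add_mem ha hb
      smul_mem' := by
        intro t a ha
        show vecMulVec (t • a - (φ ⬝ᵥ (t • a)) • v) φ ∈ L
        have e : t • a - (φ ⬝ᵥ (t • a)) • v = t • (a - (φ ⬝ᵥ a) • v) := by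
          rw [dotProduct_smul, smul_eq_mul]
          module
        rw [e, smul_vecMulVec]
        exact L.smul_mem t ha }
  have hvB : v ∈ B := by
    show vecMulVec (v - (φ ⬝ᵥ v) • v) φ ∈ L
    rw [hφv, one_smul, sub_self, zero_vecMulVec]
    exact L.zero_mem
  have hBN : ∀ w ∈ B, N *ᵥ w ∈ B := by
    intro w hw
    show vecMulVec (N *ᵥ w - (φ ⬝ᵥ (N *ᵥ w)) • v) φ ∈ L
    have hw' : vecMulVec (w - (φ ⬝ᵥ w) • v) φ ∈ L := hw
    set x := w - (φ ⬝ᵥ w) • v with hx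
    have hxφ : φ ⬝ᵥ x = 0 := by
      rw [hx, dotProduct_sub, dotProduct_smul, hφv, smul_eq_mul, mul_one, sub_self]
    have e1 := (hpartL _ (ad_mem hN hE hw')).2
    have e2 : (N * vecMulVec x φ - vecMulVec x φ * N) * p = vecMulVec (N *ᵥ x) φ - ((φ ᵥ* N) ⬝ᵥ v) • vecMulVec x φ := by
      rw [sub_mul, Matrix.mul_assoc N, eph, mul_vecMulVec, vecMulVec_mul, hp, vecMulVec_mul_vecMulVec, vecMulVec_smul]
    have e3 : p * (N * vecMulVec x φ - vecMulVec x φ * N) * p = (φ ⬝ᵥ (N *ᵥ x)) • vecMulVec v φ := by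
      rw [Matrix.mul_assoc, e2, mul_sub, mul_smul_comm, hp, vecMulVec_mul_vecMulVec, vecMulVec_mul_vecMulVec, hxφ, zero_smul,
        vecMulVec_zero, smul_zero, sub_zero, vecMulVec_smul]
    rw [e2, e3] at e1
    have e4 := L.add_mem e1 (L.smul_mem ((φ ᵥ* N) ⬝ᵥ v) hw')
    have e5 : vecMulVec (N *ᵥ x) φ - ((φ ᵥ* N) ⬝ᵥ v) • vecMulVec x φ - (φ ⬝ᵥ (N *ᵥ x)) • vecMulVec v φ +
        ((φ ᵥ* N) ⬝ᵥ v) • vecMulVec x φ = vecMulVec (N *ᵥ x - (φ ⬝ᵥ (N *ᵥ x)) • v) φ := by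
      rw [vs2 (N *ᵥ x) v φ]
      module
    rw [e5] at e4
    have e6 : N * p - p * N * p = vecMulVec (N *ᵥ v - (φ ⬝ᵥ (N *ᵥ v)) • v) φ := by
      rw [Matrix.mul_assoc p, hp, mul_vecMulVec N, vecMulVec_mul_vecMulVec, vs2, vecMulVec_smul]
    rw [e6] at hN2
    have e7 := L.add_mem e4 (L.smul_mem (φ ⬝ᵥ w) hN2)
    have e8 : N *ᵥ w - (φ ⬝ᵥ (N *ᵥ w)) • v = (N *ᵥ x - (φ ⬝ᵥ (N *ᵥ x)) • v) +
        (φ ⬝ᵥ w) • (N *ᵥ v - (φ ⬝ᵥ (N *ᵥ v)) • v) := by
      have e9 : w = x + (φ ⬝ᵥ w) • v := by rw [hx, sub_add_cancel]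
      have e10 : N *ᵥ w = N *ᵥ x + (φ ⬝ᵥ w) • (N *ᵥ v) := by
        conv_lhs => rw [e9]
        rw [mulVec_add, mulVec_smul]
      rw [e10, dotProduct_add, dotProduct_smul, smul_eq_mul]
      module
    rw [e8, add_vecMulVec, smul_vecMulVec]
    exact e7
  refine tr_mem hφv (fun X hX Y hY => br_mem_LieOf hX hY) (fun ψ hψ => ?_) (fun w hw => ?_) X hX
  · have e1 : ψ ∈ A := cyc_all' hN hφ hφA hAN ψ
    have e2 : vecMulVec v (ψ - (ψ ⬝ᵥ v) • φ) ∈ L := e1
    rwa [hψ, zero_smul, sub_zero] at e2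
  · have e1 : w ∈ B := cyc_all hN hv hvB hBN w
    have e2 : vecMulVec (w - (φ ⬝ᵥ w) • v) φ ∈ L := e1
    rwa [hw, zero_smul, sub_zero] at e2

end lie

end Pool.Agent.E8helper3.HL
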