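import Pool.Agent.E8helper3.HO.Conn

/-!
# The determinant of the solution matrix
-/

set_option autoImplicit false

open Filter Topology Matrix Polynomial

namespace Pool.Agent.E8helper3.HL

open Pool.Agent.Y119.HY Pool.Agent.E8helper3.HO

variable {n : ℕ} {Q : Polynomial ℚ}

/-- the derivative of a determinant -/
lemma hasDerivAt_det {Y : ℂ → Matrix (Fin n) (Fin n) ℂ} {Y' : Matrix (Fin n) (Fin n) ℂ} {z : ℂ} (h : HD Y Y' z) :
    HasDerivAt (fun w => (Y w).det) (∑ j, ((Y z).updateCol j (fun i => Y' i j)).det) z := by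
  simp only [Matrix.det_apply]
  rw [Finset.sum_comm]
  refine HasDerivAt.fun_sum fun σ _ => ?_
  rw [← Finset.smul_sum]
  have h1 : HasDerivAt (fun w => ∏ i, Y w (σ i) i) (∑ i, (∏ j ∈ Finset.univ.erase i, Y z (σ j) j) • Y' (σ i) i) z :=
    HasDerivAt.fun_finsetProd fun i _ => h (σ i) i
  have h2 : (∑ i, (∏ j ∈ Finset.univ.erase i, Y z (σ j) j) • Y' (σ i) i) =
      ∑ i, ∏ j, (Y z).updateCol i (fun a => Y' a i) (σ j) j := by
    refine Finset.sum_congr rfl fun i _ => ?_
    rw [← Finset.mul_prod_erase Finset.univ _ (Finset.mem_univ i)]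
    simp only [Matrix.updateCol_self]
    rw [smul_eq_mul, mul_comm]
    congr 1
    refine Finset.prod_congr rfl fun j hj => ?_
    rw [Matrix.updateCol_ne (Finset.ne_of_mem_erase hj)]
  rw [h2] at h1
  exact h1.const_smul _

/-- Jacobi's formula for solutions of linear systems -/
lemma det_ode {Y : ℂ → Matrix (Fin n) (Fin n) ℂ} {G : Matrix (Fin n) (Fin n) ℂ} {z : ℂ} (h : HD Y (G * Y z) z) :
    HasDerivAt (fun w => (Y w).det) (G.trace * (Y z).det) z := by
  refine (hasDerivAt_det h).congr_deriv ?_
  have h1 : ∑ j, ((Y z).updateCol j (fun i => (G * Y z) i j)).det = ((Y z).adjugate * (G * Y z)).trace := by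
    rw [Matrix.trace]
    refine Finset.sum_congr rfl fun j _ => ?_
    rw [← Matrix.cramer_apply, Matrix.cramer_eq_adjugate_mulVec]
    simp [Matrix.mulVec, dotProduct, Matrix.mul_apply]
  rw [h1, ← Matrix.mul_assoc, Matrix.trace_mul_comm, ← Matrix.mul_assoc, Matrix.mul_adjugate, Matrix.smul_mul,
    Matrix.one_mul, Matrix.trace_smul, smul_eq_mul, mul_comm]

lemma Am_trace : (Am n).trace = 0 := by
  rw [Matrix.trace]
  refine Finset.sum_eq_zero fun i _ => ?_
  rw [Matrix.diag_apply]
  unfold Am
  rw [Matrix.of_apply, if_neg (by omega)]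

lemma Bm_trace (hn : 1 ≤ n) : (Bm n Q).trace = Q.coeff (n - 1) := by
  rw [Matrix.trace, Finset.sum_eq_single (⟨n - 1, by omega⟩ : Fin n)]
  · rw [Matrix.diag_apply]
    unfold Bm
    rw [Matrix.of_apply, if_pos (show n - 1 + 1 = n by omega)]
  · intro b _ hb
    rw [Matrix.diag_apply]
    unfold Bm
    rw [Matrix.of_apply, if_neg (fun h => hb (Fin.ext (by simp only; omega)))]
  · intro h
    exact absurd (Finset.mem_univ _) h

lemma cm_trace (M : Matrix (Fin n) (Fin n) ℚ) : (cm M).trace = ((M.trace : ℚ) : ℂ) := by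
  simp only [Matrix.trace, Matrix.diag_apply, cm_apply]
  push_cast
  rfl

lemma Gm_trace (hn : 1 ≤ n) (z : ℂ) : (Gm (cm (Am n)) (cm (Bm n Q)) z).trace = -rh n Q / (1 - z) := by
  unfold Gm rh
  rw [Matrix.trace_add, Matrix.trace_smul, Matrix.trace_smul, cm_trace, cm_trace, Am_trace, Bm_trace hn]
  push_cast
  simp only [smul_eq_mul, mul_zero, zero_add, neg_neg]
  ring

lemma E_det (hn : 1 ≤ n) (s : ℂ) : (E (cm (Am n)) s).det = 1 := by
  have h1 : (E (cm (Am n)) s).IsUpperTriangular := by
    intro i j hij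
    have hij' : (j : ℕ) < i := hij
    unfold E
    rw [Matrix.sum_apply]
    refine Finset.sum_eq_zero fun l _ => ?_
    rw [Matrix.smul_apply, ← cm_pow, cm_apply, Am_pow, if_neg (by omega)]
    simp
  rw [Matrix.det_of_isUpperTriangular h1]
  refine Finset.prod_eq_one fun i _ => ?_
  unfold E
  rw [Matrix.sum_apply, Finset.sum_eq_single 0]
  · simp
  · intro l _ hl
    rw [Matrix.smul_apply, ← cm_pow, cm_apply, Am_pow, if_neg (by omega)]
    simp
  · intro h
    exact absurd (Finset.mem_range.2 (by omega)) h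

/-- **the determinant of the solution** -/
theorem Yn_det_eq (hQ : QE n Q) {z : ℂ} (hz : z ∈ Lens) :
    (Yn n Q z).det = Complex.exp (rh n Q * Complex.log (1 - z)) := by
  have hn := hQ.two
  set F : ℂ → ℂ := fun z => (Yn n Q z).det * Complex.exp (-(rh n Q) * Complex.log (1 - z)) with hF
  have hd : ∀ w ∈ Lens, HasDerivAt F 0 w := by
    intro w hw
    have h1 := det_ode (Yf_ode (sol_c hQ) Ac_nil (mem_Lens.1 hw).1 (slit_Lens hw))
    rw [Gm_trace (by omega)] at h1
    have hw1 : 1 - w ∈ Complex.slitPlane := slit_Lens (symm_Lens hw)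
    have h2 : HasDerivAt (fun z : ℂ => 1 - z) (-1) w := by
      simpa using (hasDerivAt_id w).const_sub 1
    have h3 := ((h2.clog hw1).const_mul (-(rh n Q))).cexp
    refine (h1.mul h3).congr_deriv ?_
    ring
  have hconst : ∀ z ∈ Lens, ∀ w ∈ Lens, F z = F w := by
    intro z hz w hw
    refine isOpen_Lens.is_const_of_deriv_eq_zero preconn_Lens (fun x hx => (hd x hx).differentiableAt.differentiableWithinAt)
      (fun x hx => (hd x hx).deriv) hz hw
  have hF1 : F z = 1 := by
    -- the limit at the origin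
    have h1 : Tendsto (fun x : ℝ => F x) (𝓝[>] 0) (𝓝 1) := by
      have hof : Tendsto (fun x : ℝ => (x : ℂ)) (𝓝[>] 0) (𝓝 0) :=
        tendsto_nhdsWithin_of_tendsto_nhds (by
          have := Complex.continuous_ofReal.tendsto 0
          simpa using this)
      have h2 : ContinuousAt (fun w : ℂ => (Hf (Hc n Q) w).det * Complex.exp (-(rh n Q) * Complex.log (1 - w))) 0 := by
        refine ContinuousAt.mul ?_ ?_
        · have h1 : ContinuousAt (fun w : ℂ => Hf (Hc n Q) w) 0 := by
            refine continuousAt_pi.2 fun i => continuousAt_pi.2 fun j => ?_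
            exact (Hf_an (sol_c hQ) Ac_nil i j 0 (Metric.mem_ball_self one_pos)).continuousAt
          exact (Continuous.matrix_det continuous_id).continuousAt.comp h1
        · refine Complex.continuous_exp.continuousAt.comp (continuousAt_const.mul ?_)
          refine ContinuousAt.clog (by fun_prop) ?_
          simp
      have h3 := h2.tendsto.comp hof
      simp only [Hf_zero (sol_c hQ), det_one, one_mul, sub_zero, Complex.log_one, mul_zero, Complex.exp_zero] at h3
      refine h3.congr fun x => ?_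
      simp only [Function.comp_apply, hF]
      congr 1
      show _ = (Hf (Hc n Q) x * E (cm (Am n)) (Complex.log x)).det
      rw [det_mul, E_det (by omega), mul_one]
    have h2 : Tendsto (fun x : ℝ => F x) (𝓝[>] 0) (𝓝 (F z)) := by
      refine tendsto_const_nhds.congr' ?_
      have h3 : ∀ᶠ x : ℝ in 𝓝[>] 0, x < 1 := tendsto_nhdsWithin_of_tendsto_nhds tendsto_id (gt_mem_nhds one_pos)
      filter_upwards [h3, self_mem_nhdsWithin] with x hx hx0
      exact hconst z hz _ (real_mem_Lens hx0 hx)
    exact tendsto_nhds_unique h2 h1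
  rw [hF] at hF1
  simp only at hF1
  have h4 : Complex.exp (-(rh n Q) * Complex.log (1 - z)) * Complex.exp (rh n Q * Complex.log (1 - z)) = 1 := by
    rw [← Complex.exp_add, ← Complex.exp_zero]
    congr 1
    ring
  calc (Yn n Q z).det = (Yn n Q z).det * (Complex.exp (-(rh n Q) * Complex.log (1 - z)) *
        Complex.exp (rh n Q * Complex.log (1 - z))) := by rw [h4, mul_one]
    _ = _ := by rw [← mul_assoc, hF1, one_mul]

end Pool.Agent.E8helper3.HL
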