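import Pool.Agent.E8helper3.HL.Conn2
import Pool.Agent.E8helper3.HL.GrpL
import Pool.Agent.E8helper3.HO.Ort2

/-!
# Hypergeometric systems: the relations between the solutions are invariant under `SL_n` and the pseudoreflection
-/

set_option autoImplicit false

open Filter Topology Matrix

namespace Pool.Agent.E8helper3.HL

open Pool.Agent.Y119.HY Pool.Agent.E8helper3.HO

variable {n : ℕ} {Q : Polynomial ℚ}

/-- the functional of the pseudoreflection is a cyclic vector -/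
theorem func_ne (hQ : QE n Q) {K : ℕ → Matrix (Fin n) (Fin n) ℂ}
    {M : Matrix (Fin n) (Fin n) ℂ} (hg : ∀ i j, PG fun k => K k i j)
    (hconn : ∀ z ∈ Lens, Yn n Q z = Zf (Tm n Q) (rh n Q) K (1 - z) * M) : Tm n Q *ᵥ (M *ᵥ ec n) ≠ 0 := by
  intro hcon
  have hn2 := hQ.two
  refine sing hQ (fun z => (Hf K (1 - z) *ᵥ (M *ᵥ ec n)) ⟨0, by omega⟩) ?_ fun z hz => ?_
  · simp only [Matrix.mulVec, dotProduct]
    refine Finset.analyticOnNhd_fun_sum _ fun j _ => AnalyticOnNhd.mul ?_ analyticOnNhd_const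
    intro z hz
    have h3 : AnalyticAt ℂ (fun w => Hf K w ⟨0, by omega⟩ j) (1 - z) := Hf_an' hg _ j (1 - z) (by
      rw [Metric.mem_ball, dist_comm, dist_eq_norm] at hz
      rwa [Metric.mem_ball, dist_zero_right])
    have h4 : AnalyticAt ℂ (fun w : ℂ => 1 - w) z := analyticAt_const.sub analyticAt_id
    exact h3.fun_comp h4
  · have h3 := congrArg (fun X : Matrix (Fin n) (Fin n) ℂ => X *ᵥ ec n) (hconn z hz)
    have h4 : WW (Tm n Q) (rh n Q) (Complex.log (1 - z)) *ᵥ (M *ᵥ ec n) = M *ᵥ ec n := by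
      unfold WW
      rw [add_mulVec, one_mulVec, smul_mulVec, hcon, smul_zero, add_zero]
    unfold Zf Yn Yf at h3
    rw [← mulVec_mulVec, E_fix (Ac_ec n), ← mulVec_mulVec, ← mulVec_mulVec, h4] at h3
    rw [h3]

/-- the exponent sum -/
lemma rh_ne {Q : Polynomial ℚ} (h : ∀ a : ℤ, Q.coeff (n - 1) ≠ a) : rh n Q ≠ 0 ∧ ∀ k : ℕ, ((k : ℂ) + 1) ^ 2 - rh n Q ^ 2 ≠ 0 := by
  constructor
  · intro h0
    unfold rh at h0
    have h1 : (-Q.coeff (n - 1) : ℚ) = 0 := by exact_mod_cast h0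
    exact h 0 (by push_cast; linarith)
  · intro k h0
    unfold rh at h0
    have h1 : ((k : ℚ) + 1) ^ 2 - (-Q.coeff (n - 1)) ^ 2 = 0 := by exact_mod_cast h0
    have h2 : ((k : ℚ) + 1 - Q.coeff (n - 1)) * ((k : ℚ) + 1 + Q.coeff (n - 1)) = 0 := by linear_combination h1
    rcases mul_eq_zero.1 h2 with h3 | h3
    · exact h (k + 1) (by push_cast; linarith)
    · exact h (-(k + 1)) (by push_cast; linarith)

/-- **the pseudoreflection in the Galois group** -/
theorem pseudo (hQ : QE n Q) (hQ' : QE n (dual n Q)) (hσ : ∀ a : ℤ, Q.coeff (n - 1) ≠ a) :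
    ∃ v φ : Fin n → ℂ, φ ⬝ᵥ v = 1 ∧ (cm (Am n) ^ (n - 1)) *ᵥ v ≠ 0 ∧ φ ᵥ* (cm (Am n) ^ (n - 1)) ≠ 0 ∧
      ∀ k : ℕ, 1 + (Complex.exp (2 * Real.pi * Complex.I * ((-Q.coeff (n - 1) : ℚ) : ℂ)) ^ k - 1) • vecMulVec v φ ∈
        Gal (Yn n Q) := by
  have hn := hQ.two
  obtain ⟨h0, hρ⟩ := rh_ne hσ
  obtain ⟨K, M, Mi, hK, hg, hMMi, hMiM, hconn⟩ := conn_data hQ hQ' h0 hρ
  have hT := Tm_sq (Q := Q) (by omega : 1 ≤ n) h0
  have hmono := mono_one hT hg hMMi (Y := Yn n Q) fun x hx hx1 => hconn x (real_mem_Lens hx hx1)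
  have hv := axis_ne hQ hQ' h0 hK hg hMMi hconn
  have hf := func_ne hQ hg hconn
  set τ : Fin n → ℂ := (-(rh n Q)⁻¹) • fun j : Fin n => ((Q.coeff j : ℚ) : ℂ) with hτ
  have hTe : Tm n Q = vecMulVec (uc n) τ := Tm_vec
  set v := Mi *ᵥ uc n with hvd
  set φ := τ ᵥ* M with hφd
  set p := vecMulVec v φ with hp
  have hpe : Mi * Tm n Q * M = p := by
    rw [hTe, mul_vecMulVec, vecMulVec_mul]
  have hpp : p * p = p := by
    rw [← hpe]
    calc Mi * Tm n Q * M * (Mi * Tm n Q * M) = Mi * Tm n Q * (M * Mi) * Tm n Q * M := by simp only [Matrix.mul_assoc]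
      _ = Mi * (Tm n Q * Tm n Q) * M := by rw [hMMi, mul_one]; simp only [Matrix.mul_assoc]
      _ = _ := by rw [hT]
  have hpv : ∀ y, p *ᵥ y = (φ ⬝ᵥ y) • v := by
    intro y
    rw [hp, vecMulVec_mulVec]
    ext i
    simp only [Pi.smul_apply, MulOpposite.smul_eq_mul_unop, MulOpposite.unop_op, smul_eq_mul]
    ring
  have hne : φ ⬝ᵥ ec n ≠ 0 := by
    intro h1
    apply hf
    have h2 := hpv (ec n)
    rw [h1, zero_smul] at h2
    have h3 : M *ᵥ (p *ᵥ ec n) = Tm n Q *ᵥ (M *ᵥ ec n) := by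
      rw [← hpe, mulVec_mulVec, mulVec_mulVec]
      congr 1
      calc M * (Mi * Tm n Q * M) = (M * Mi) * Tm n Q * M := by simp only [Matrix.mul_assoc]
        _ = _ := by rw [hMMi, one_mul]
    rw [← h3, h2, mulVec_zero]
  have hv0 : v ≠ 0 := by
    intro h1
    apply hv
    rw [h1]
    rfl
  have hφv : φ ⬝ᵥ v = 1 := by
    have h1 := hpv (p *ᵥ ec n)
    rw [mulVec_mulVec, hpp, hpv, dotProduct_smul, smul_eq_mul] at h1
    have h2 : (φ ⬝ᵥ ec n) • v - ((φ ⬝ᵥ ec n * φ ⬝ᵥ v)) • v = 0 := by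
      rw [sub_eq_zero]
      exact h1
    rw [← sub_smul] at h2
    have h3 := (smul_eq_zero.1 h2).resolve_right hv0
    have h4 : φ ⬝ᵥ ec n * (1 - φ ⬝ᵥ v) = 0 := by linear_combination h3
    have h5 := (mul_eq_zero.1 h4).resolve_left hne
    linear_combination -h5
  refine ⟨v, φ, hφv, ?_, ?_, ?_⟩
  · rw [Ac_last hn]
    intro h1
    have h2 := congrFun h1 ⟨0, by omega⟩
    unfold ec at h2
    simp only [Pi.smul_apply, if_true, smul_eq_mul, mul_one, Pi.zero_apply] at h2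
    exact hv h2
  · intro h1
    apply hne
    have h2 : (φ ᵥ* (cm (Am n) ^ (n - 1))) ⬝ᵥ uc n = 0 := by rw [h1, zero_dotProduct]
    rw [← dotProduct_mulVec, Ac_last hn] at h2
    have h3 : uc n ⟨n - 1, by omega⟩ = 1 := by
      unfold uc
      rw [if_pos (show n - 1 + 1 = n by omega)]
    rwa [h3, one_smul] at h2
  · set c := Complex.exp (2 * Real.pi * Complex.I * ((-Q.coeff (n - 1) : ℚ) : ℂ)) with hc
    have hh : 1 + (c - 1) • p ∈ Gal (Yn n Q) := by
      have h1 : Mi * WW (Tm n Q) (rh n Q) (2 * Real.pi * Complex.I) * M = 1 + (c - 1) • p := by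
        unfold WW
        rw [mul_add, add_mul, mul_one, hMiM, mul_smul_comm, smul_mul_assoc, hpe, hc]
        unfold rh
        rw [mul_comm (2 * (Real.pi : ℂ) * Complex.I)]
      rw [← h1]
      exact hmono
    intro k
    induction k with
    | zero =>
      rw [pow_zero, sub_self, zero_smul, add_zero]
      exact (Gal (Yn n Q)).one_mem
    | succ k ih =>
      have h1 := (Gal (Yn n Q)).mul_mem ih hh
      have h2 : (1 + (c ^ k - 1) • p) * (1 + (c - 1) • p) = 1 + (c ^ (k + 1) - 1) • p := by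
        simp only [add_mul, mul_add, one_mul, mul_one, smul_mul_smul_comm, hpp]
        module
      rwa [h2] at h1

/-- extension of the group by the determinants -/
theorem det_all {v φ : Fin n → ℂ} (hφv : φ ⬝ᵥ v = 1) {c : ℂ} {b : ℕ} (hb : 0 < b) (hc : IsPrimitiveRoot c b)
    {S : Submonoid (Matrix (Fin n) (Fin n) ℂ)} (hS : ∀ k : ℕ, 1 + (c ^ k - 1) • vecMulVec v φ ∈ S)
    (hsl : ∀ g : Matrix (Fin n) (Fin n) ℂ, g.det = 1 → g ∈ S) (g : Matrix (Fin n) (Fin n) ℂ) (hg : g.det ^ b = 1) : g ∈ S := by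
  have : NeZero b := ⟨hb.ne'⟩
  obtain ⟨j, hj, hj'⟩ := hc.eq_pow_of_pow_eq_one hg
  have hpp : vecMulVec v φ * vecMulVec v φ = vecMulVec v φ := by
    rw [vecMulVec_mul_vecMulVec, hφv, one_smul]
  have hdet : ∀ k : ℕ, (1 + (c ^ k - 1) • vecMulVec v φ).det = c ^ k := by
    intro k
    rw [← vecMulVec_smul, det_vec, smul_dotProduct, hφv, smul_eq_mul, mul_one]
    ring
  have h1 : g * (1 + (c ^ (b - j) - 1) • vecMulVec v φ) ∈ S := by
    refine hsl _ ?_
    rw [det_mul, hdet, ← hj', ← pow_add]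
    have : j + (b - j) = b := by omega
    rw [this, hc.pow_eq_one]
  have h2 := S.mul_mem h1 (hS j)
  have h3 : (1 + (c ^ (b - j) - 1) • vecMulVec v φ) * (1 + (c ^ j - 1) • vecMulVec v φ) = 1 := by
    simp only [add_mul, mul_add, one_mul, mul_one, smul_mul_smul_comm, hpp]
    have h4 : (c ^ (b - j) - 1) * (c ^ j - 1) = 1 + 1 - c ^ j - c ^ (b - j) := by
      have h5 : c ^ (b - j) * c ^ j = 1 := by
        rw [← pow_add]
        have : b - j + j = b := by omega
        rw [this, hc.pow_eq_one]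
      linear_combination h5
    rw [h4]
    module
  rwa [Matrix.mul_assoc, h3, mul_one] at h2

attribute [local instance] Matrix.linftyOpNormedRing Matrix.linftyOpNormedAlgebra

/-- **The relations between the solutions of a hypergeometric system with `2 ∑ γ` not an integer are invariant under the
group of the matrices `g` with `det(g)^b = 1`, where `b` is the denominator of `∑ γ`.** -/
theorem lin_invar (hQ : QE n Q) (hQ' : QE n (dual n Q)) (hσ : ∀ a : ℤ, 2 * Q.coeff (n - 1) ≠ a)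
    (g : Matrix (Fin n) (Fin n) ℂ) (hg : g.det ^ (Q.coeff (n - 1)).den = 1) : g ∈ Gal (Yn n Q) := by
  have hn := hQ.two
  have : NeZero n := ⟨by omega⟩
  have : CompleteSpace (Matrix (Fin n) (Fin n) ℂ) := FiniteDimensional.complete ℂ _
  have hσ' : ∀ a : ℤ, Q.coeff (n - 1) ≠ a := by
    intro a h
    exact hσ (2 * a) (by rw [h]; push_cast; ring)
  obtain ⟨v, φ, hφv, hv, hφ, hk⟩ := pseudo hQ hQ' hσ'
  set c := Complex.exp (2 * Real.pi * Complex.I * ((-Q.coeff (n - 1) : ℚ) : ℂ)) with hc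
  have hprim : IsPrimitiveRoot c (Q.coeff (n - 1)).den := by
    have := Complex.isPrimitiveRoot_exp_rat (-Q.coeff (n - 1))
    rwa [Rat.neg_den] at this
  have hb := (Q.coeff (n - 1)).den_pos
  have hc2 : c ^ 2 ≠ 1 := by
    intro h
    have h1 := hprim.dvd_of_pow_eq_one 2 h
    obtain ⟨d, hd⟩ := h1
    refine hσ ((Q.coeff (n - 1)).num * d) ?_
    have h2 : ((Q.coeff (n - 1)).den : ℚ) * d = 2 := by exact_mod_cast hd.symm
    have h3 : (Q.coeff (n - 1)) * (Q.coeff (n - 1)).den = (Q.coeff (n - 1)).num := Rat.mul_den_eq_num _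
    push_cast
    rw [← h3, ← h2]
    ring
  refine det_all hφv hb hprim hk (fun g hg => ?_) g hg
  refine sl_mem (hS := Gal_isClosed _) hn (fun X hX => ?_) hg
  refine lin_lie Ac_nil hφv hv hφ (Complex.exp_ne_zero _) hc2 (fun c g hg => conj_E Ac_nil (sol_c hQ) c g hg) ?_ ?_ X hX
  · have := hk 1
    rwa [pow_one] at this
  · have h1 := hk ((Q.coeff (n - 1)).den - 1)
    have h2 : c ^ ((Q.coeff (n - 1)).den - 1) = c⁻¹ := by
      refine eq_inv_of_mul_eq_one_left ?_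
      rw [← pow_succ, Nat.sub_add_cancel hb, hprim.pow_eq_one]
    rwa [h2] at h1

end Pool.Agent.E8helper3.HL
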